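import Pool.Agent.H.MP_73efbe_lc.A

set_option autoImplicit false

namespace Pool.Agent.Results.MP_9a6b8c_lc.Yes

open Pool.Agent.H.MP_73efbe_lc Pool.Agent.Lib.helper21.PR Function

attribute [local irreducible] Primrec Computable

/-- value of the operator `Ψ` (a set of pairs: number, finite set given as a list) on `B` -/
def App (Ψ : ℕ × List ℕ → Prop) (B : Set ℕ) : Set ℕ := {x | ∃ l, Ψ (x, l) ∧ ∀ y ∈ l, y ∈ B}

def Red (r : Set (ℕ × List ℕ → Prop)) (A B : Set ℕ) : Prop := ∃ Ψ ∈ r, A = App Ψ B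

/-- `r` is a class of enumeration operators giving a proper e-reducibility -/
def ProperE (r : Set (ℕ × List ℕ → Prop)) : Prop :=
  (∀ Ψ ∈ r, REPred Ψ) ∧ (∀ A, Red r A A) ∧ (∀ A B C, Red r A B → Red r B C → Red r A C) ∧
    ∀ A : Set ℕ, REPred (· ∈ A) → Red r A ∅ ∧ Red r ∅ A

/-- pc-operators: at most one finite set for each number -/
def pc : Set (ℕ × List ℕ → Prop) :=
  {Ψ | REPred Ψ ∧ ∀ x l m, Ψ (x, l) → Ψ (x, m) → ∀ y, y ∈ l ↔ y ∈ m}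

/-- pm-operators: pc-operators that are also s-operators -/
def pm : Set (ℕ × List ℕ → Prop) :=
  {Ψ | Ψ ∈ pc ∧ ∀ x l, Ψ (x, l) → ∀ y ∈ l, ∀ z ∈ l, y = z}

def Cm (Ψ Φ : ℕ × List ℕ → Prop) (p : ℕ × List ℕ) : Prop := ∃ k, Ψ (p.1, k) ∧
  (∀ y ∈ k, ∃ m, Φ (y, m) ∧ ∀ z ∈ m, z ∈ p.2) ∧ ∀ z ∈ p.2, ∃ y m, y ∈ k ∧ Φ (y, m) ∧ z ∈ m

variable {Ψ Φ : ℕ × List ℕ → Prop} {A B C : Set ℕ}

theorem cm_pc (h : Ψ ∈ pc) (k : Φ ∈ pc) : Cm Ψ Φ ∈ pc := by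
  have h1 := RE.un h.1
  have h2 := RE.un k.1
  have h3 : ∀ x l m, Cm Ψ Φ (x, l) → Cm Ψ Φ (x, m) → ∀ y ∈ l, y ∈ m :=
    fun x l m ⟨a, a1, _, a3⟩ ⟨b, b1, b2, _⟩ z hz =>
      let ⟨y, c, c1, c2, c3⟩ := a3 z hz
      let ⟨d, d1, d2⟩ := b2 y ((h.2 _ _ _ a1 b1 y).1 c1)
      d2 z ((k.2 _ _ _ c2 d1 z).1 c3)
  exact ⟨RE.re (by unfold Cm; fun_prop), fun x l m a b y => ⟨h3 x l m a b y, h3 x m l b a y⟩⟩

theorem cm_app : App (Cm Ψ Φ) C = App Ψ (App Φ C) := Set.ext fun x =>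
  ⟨fun ⟨l, ⟨k, a1, a2, _⟩, a4⟩ => ⟨k, a1, fun y hy => (a2 y hy).imp fun m h =>
    ⟨h.1, fun z hz => a4 z (h.2 z hz)⟩⟩, fun ⟨k, a1, a2⟩ => by
      choose! F h1 h2 using a2
      refine ⟨k.flatMap F, ⟨k, a1, fun y hy => ⟨_, h1 y hy, fun z hz =>
        List.mem_flatMap.2 ⟨y, hy, hz⟩⟩, fun z hz => ?_⟩, fun z hz => ?_⟩ <;>
        obtain ⟨y, b1, b2⟩ := List.mem_flatMap.1 hz
      exacts [⟨y, _, b1, h1 y b1, b2⟩, h2 y b1 z b2]⟩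

theorem pc_trans (h : Red pc A B) (k : Red pc B C) : Red pc A C :=
  let ⟨_, a, b⟩ := h; let ⟨_, c, d⟩ := k; ⟨_, cm_pc a c, by rw [cm_app, b, d]⟩

theorem up (h : Red pm A B) : Red pc A B := h.imp fun _ h => ⟨h.1.1, h.2⟩

theorem pm_refl (A : Set ℕ) : Red pm A A :=
  ⟨fun p => p.2 = [p.1], ⟨⟨RE.re (by fun_prop), by simp⟩, by simp⟩, by simp [App]⟩

theorem pm_zero (h : REPred (· ∈ A)) : Red pm A ∅ ∧ Red pm ∅ A := by
  obtain ⟨P, rfl⟩ : ∃ P : ℕ → Prop, A = {x | P x} := ⟨_, rfl⟩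
  have h1 : RE P := RE.un h
  refine ⟨⟨fun p => P p.1 ∧ p.2 = [], ⟨⟨RE.re (by fun_prop), by simp +contextual⟩, by simp⟩, ?_⟩,
    ⟨fun p => p.1 < 0, ⟨⟨RE.re (by fun_prop), by simp⟩, by simp⟩, by simp [App]⟩⟩
  simp [App]

def Lq (m m' : List ℕ) : Prop := ∀ a ∈ m, ∃ b ∈ m',
  a.unpair.1 * (b.unpair.2 + 1) ≤ b.unpair.1 * (a.unpair.2 + 1)

noncomputable def val (a : ℕ) : ℝ := a.unpair.1 / (a.unpair.2 + 1)

theorem lq {m m' : List ℕ} : Lq m m' ↔ ∀ a ∈ m, ∃ b ∈ m', val a ≤ val b := by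
  refine forall₂_congr fun a _ => exists_congr fun b => and_congr_right fun _ => ?_
  rw [val, val, div_le_div_iff₀ (by positivity) (by positivity)]
  norm_cast

theorem top (F : ℕ → List ℕ) : ∀ l : List ℕ, l ≠ [] → ∃ y ∈ l, ∀ z ∈ l, Lq (F z) (F y) := by
  intro l hl
  obtain ⟨y, h1, h2⟩ := l.toFinset.exists_max_image (fun y => (F y).toFinset.sup
    fun a => (val a : WithBot ℝ)) (by simpa using hl)
  refine ⟨y, by simpa using h1, fun z hz => lq.2 fun a ha => ?_⟩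
  have := (Finset.le_sup (f := fun a => (val a : WithBot ℝ)) (List.mem_toFinset.2 ha)).trans
    (h2 z (List.mem_toFinset.2 hz))
  simpa [Finset.le_sup_iff] using this

theorem key {t : ℝ} (h : Red pc B C) (k : Red pc C {a | val a < t}) : Red pm B C := by
  classical
  obtain ⟨Ψ, h1, rfl⟩ := h
  obtain ⟨Φ, h2, rfl⟩ := k
  have h3 := RE.un h1.1
  have h4 := RE.un h2.1
  let R : ℕ → ℕ → Prop := fun z y => ∃ m n, Φ (z, m) ∧ Φ (y, n) ∧ Lq m n ∧ (Lq n m → y ≤ z)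
  have h5 : ∀ y z, R y z → R z y → y ≤ z := fun y z ⟨m, _, a1, a2, a3, _⟩ ⟨_, _, b1, b2, _, b4⟩ =>
    b4 fun a ha => (a3 a ((h2.2 _ _ _ b2 a1 a).1 ha)).imp fun b hb =>
      ⟨(h2.2 _ _ _ a2 b1 b).1 hb.1, hb.2⟩
  let Θ : ℕ × List ℕ → Prop := fun p => ∃ k, Ψ (p.1, k) ∧ (∀ y ∈ p.2, y ∈ k ∧ ∀ z ∈ k, R z y) ∧
    (p.2 = [] → k = [])
  have h6 : ∀ x l m, Θ (x, l) → Θ (x, m) → ∀ y ∈ l, ∀ z ∈ m, y ≤ z :=
    fun x l m ⟨_, a1, a2, _⟩ ⟨_, b1, b2, _⟩ y hy z hz =>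
      h5 _ _ ((b2 z hz).2 y ((h1.2 _ _ _ a1 b1 y).1 (a2 y hy).1))
        ((a2 y hy).2 z ((h1.2 _ _ _ a1 b1 z).2 (b2 z hz).1))
  have h7 : ∀ x l m, Θ (x, l) → Θ (x, m) → ∀ y ∈ l, y ∈ m := fun x l m a b y hy => by
    obtain ⟨z, hz⟩ := List.exists_mem_of_ne_nil m fun e => by
      obtain ⟨_, a1, a2, _⟩ := a
      obtain ⟨_, b1, _, b3⟩ := b
      simpa [b3 e] using (h1.2 _ _ _ a1 b1 y).1 (a2 y hy).1
    rwa [(h6 x l m a b y hy z hz).antisymm (h6 x m l b a z hz y hy)]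
  refine ⟨Θ, ⟨⟨RE.re (by unfold Θ R Lq; fun_prop), fun x l m a b y =>
    ⟨h7 x l m a b y, h7 x m l b a y⟩⟩, fun x l a y hy z hz =>
      (h6 x l l a a y hy z hz).antisymm (h6 x l l a a z hz y hy)⟩, Set.ext fun x =>
        ⟨fun ⟨k, a1, a2⟩ => ?_, fun ⟨l, ⟨k, a1, a2, a3⟩, a4⟩ => ⟨k, a1, fun z hz => ?_⟩⟩⟩
  · by_cases e : k = []
    · exact ⟨[], ⟨k, a1, by simp, fun _ => e⟩, by simp⟩
    have a3 := a2
    choose! F b1 b2 using a3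
    have b3 := top F k e
    obtain ⟨b4, b5⟩ := Nat.find_spec b3
    refine ⟨[Nat.find b3], ⟨k, a1, List.forall_mem_singleton.2 ⟨b4, fun z hz =>
      ⟨_, _, b1 z hz, b1 _ b4, b5 z hz, fun b6 => Nat.find_min' b3 ⟨hz, fun w hw => lq.2
        fun a ha => ?_⟩⟩⟩, by simp⟩, List.forall_mem_singleton.2 (a2 _ b4)⟩
    obtain ⟨b, c1, c2⟩ := lq.1 (b5 w hw) a ha
    exact (lq.1 b6 b c1).imp fun c h => ⟨h.1, c2.trans h.2⟩
  · obtain ⟨y, hy⟩ := List.exists_mem_of_ne_nil l fun e => by simp [a3 e] at hz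
    obtain ⟨m, n, b1, b2, b3, -⟩ := (a2 y hy).2 z hz
    obtain ⟨n', b4, b5⟩ := a4 y hy
    refine ⟨m, b1, fun a ha => ?_⟩
    obtain ⟨b, c1, c2⟩ := lq.1 b3 a ha
    exact c2.trans_lt (b5 b ((h2.2 _ _ _ b2 b4 b).1 c1))

theorem cut : ∃ t : ℝ, ¬ REPred fun a => val a < t := by
  by_contra h
  choose c hc using fun t : ℝ => re_code (not_not.1 (not_exists.1 h (Real.exp t)))
  have h1 : ∀ s t, c s = c t → s ≤ t := fun s t e => not_lt.1 fun k => by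
    obtain ⟨q, h1, h2⟩ := exists_rat_btwn (Real.exp_lt_exp.2 k)
    have h3 : 0 ≤ q := by exact_mod_cast ((Real.exp_pos t).trans h1).le
    have h4 : val (Nat.pair q.num.toNat (q.den - 1)) = q := by
      rw [val, Nat.unpair_pair, Rat.cast_def, Nat.cast_pred q.pos, sub_add_cancel,
        ← Int.cast_natCast, Int.toNat_of_nonneg (Rat.num_nonneg.2 h3)]
    exact h1.not_gt (h4 ▸ (hc t _).2 (e ▸ (hc s _).1 (h4 ▸ h2)))
  exact not_injective_uncountable_countable c fun s t e => (h1 s t e).antisymm (h1 t s e.symm)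

theorem sep : ∃ A B, Red pc A B ∧ ¬ Red pm A B := by
  choose c hc using fun Ψ : pm => re_code Ψ.2.1.1
  have : Countable pm := Injective.countable (f := c) fun a b e =>
    Subtype.ext (funext fun p => propext ((hc a p).trans (e ▸ (hc b p).symm)))
  obtain ⟨u, hu⟩ := baire (ι := pm) fun Ψ v =>
    {x | v (2 * x) = 0 ∧ v (2 * x + 1) = 0} ≠ App Ψ {i | v i = 0}
  refine ⟨{x | u (2 * x) = 0 ∧ u (2 * x + 1) = 0}, {i | u i = 0}, ⟨fun p => p.2 = [2 * p.1,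
    2 * p.1 + 1], ⟨RE.re (by fun_prop), by simp⟩, by simp [App]⟩, fun ⟨Ψ, a, b⟩ => ?_⟩
  obtain ⟨n, h | h⟩ := hu ⟨Ψ, a⟩
  · exact h u (fun _ _ => rfl) b
  by_cases e : ∃ l, Ψ (n, l) ∧ ∀ y ∈ l, y < n → u y = 0
  · obtain ⟨l, b1, b2⟩ := e
    obtain ⟨w, b3, b4⟩ := h (fun i => if i < n then u i else if i ∈ l then 0 else 1)
      (l.sum + 2 * n + 2) fun i hi => if_pos hi
    have b5 : ∀ i, n ≤ i → i < l.sum + 2 * n + 2 → w i = 0 → i ∈ l := fun i h1 h2 h3 => by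
      by_contra k
      simp [b3 i h2, k, h1.not_gt] at h3
    obtain ⟨b6, b7⟩ := (Set.ext_iff.1 (not_not.1 b4) n).2 ⟨l, b1, fun y hy => by
      have := List.single_le_sum (l := l) (by simp) y hy
      refine (b3 y (by omega)).trans ?_
      dsimp only
      split_ifs with h1
      exacts [b2 y hy h1, rfl]⟩
    have := a.2 _ _ b1 _ (b5 _ (by omega) (by omega) b6) _ (b5 _ (by omega) (by omega) b7)
    omega
  · obtain ⟨w, b3, b4⟩ := h (fun i => if i < n then u i else 0) (2 * n + 2) fun i hi => if_pos hi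
    obtain ⟨l, b5, b6⟩ := (Set.ext_iff.1 (not_not.1 b4) n).1
      ⟨(b3 _ (by omega)).trans (if_neg (by omega)), (b3 _ (by omega)).trans (if_neg (by omega))⟩
    exact e ⟨l, b5, fun y hy k => ((b3 y (by omega)).trans (if_pos k)).symm.trans (b6 y hy)⟩

theorem result : ProperE pm ∧ ProperE pc ∧ (∀ A B, Red pm A B → Red pc A B) ∧
    (∃ A B, Red pc A B ∧ ¬ Red pm A B) ∧ ∃ A, ¬ (Red pc A ∅ ∧ Red pc ∅ A) ∧
      ∀ B C, Red pc B A ∧ Red pc A B → Red pc C A ∧ Red pc A C → Red pm B C ∧ Red pm C B := by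
  refine ⟨⟨fun _ h => h.1.1, pm_refl, fun A B C ⟨Ψ, a, b⟩ ⟨Φ, c, d⟩ => ⟨_, ⟨cm_pc a.1 c.1,
    fun x l ⟨k, a1, _, a3⟩ y hy z hz => ?_⟩, by rw [cm_app, b, d]⟩, fun _ => pm_zero⟩,
    ⟨fun _ h => h.1, fun A => up (pm_refl A), fun _ _ _ => pc_trans, fun _ h =>
      (pm_zero h).imp up up⟩, fun _ _ => up, sep, ?_⟩
  · obtain ⟨y', m, b1, b2, b3⟩ := a3 y hy
    obtain ⟨z', n, c1, c2, c3⟩ := a3 z hz
    obtain rfl := a.2 _ _ a1 _ b1 _ c1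
    exact c.2 _ _ c2 _ ((c.1.2 _ _ _ b2 c2 y).1 b3) _ c3
  · obtain ⟨t, ht⟩ := cut
    refine ⟨{a | val a < t}, fun ⟨⟨Ψ, a, b⟩, _⟩ => ht ?_, fun B C h k =>
      ⟨key (pc_trans h.1 k.2) k.1, key (pc_trans k.1 h.2) h.1⟩⟩
    have h1 := RE.un a.1
    exact (RE.re (p := fun x => Ψ (x, [])) (by fun_prop)).of_eq fun x => by
      simpa [App, ← List.eq_nil_iff_forall_not_mem] using (Set.ext_iff.1 b x).symm

end Pool.Agent.Results.MP_9a6b8c_lc.Yes
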